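import Pool.Agent.X156.GL.Reg

/-!
# The element `Θ^(r)_{S,T}(H/F, 0)` as an unconditional limit of absolutely convergent sums over primes, for all orders
`r`, and Rubin's conjecture as the approach of explicit elements of `ℂ[G]` to `ℤ[G]`

`F` is any number field (here: `K`), `𝔪 ≠ (0), (1)` an ideal, `R` a finite set of real embeddings, `G` a finite abelian
group, `c` a map from the ideals to `G` which is multiplicative on the ideals prime to `𝔪` and trivial on the `(x)`,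
`x ≡ 1` modulo `𝔪`, `x` positive at the real embeddings outside of `R` (the Artin symbol of an abelian extension `H/F`
which is unramified outside of `𝔪` and of the real places outside of `R`, `𝔪` divisible by the conductor). `V` is a
finite set of primes not dividing `𝔪` with `c(v) = 1`; `S` consists of the archimedean places, the primes dividing `𝔪` and
those in `V`, and `r = |R| + r₂ + |V|` is the number of the places (the complex ones, `R`, `V`) that split completely.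
`l` is the finite set of primes `T` of the conjecture (the letter `T` is used for the parameter). UNCONDITIONALLY:

1. The coefficients `Z_g` of `Θ_{S,T}(s) = ∑_g Z_g(s) g⁻¹`, `∑_g χ(g) Z_g(s) = L_{S,T}(χ, s)`, continue to functions
   analytic on `ℂ - {1}` and meromorphic at `1`, uniquely.
2. They vanish at `0` at least to the order `r`, `lim Z_g(s) / s^r = θ(g)` is real, so that
   `Θ^(r)_{S,T}(H/F, 0) = ∑_g θ(g) g⁻¹`, and for a fixed `γ > π/2`, as `T → ∞`,

   `θ(g) = ∏_{v ∈ V} log Nv · (T e^(-Λ(γ)))^(|R| + r₂) [∏_{q ∈ l} (1 - Nq c(q)) · exp 𝒮(T)]_g + O(1/T)`,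
   `𝒮(T) = ∑_{v ∤ 𝔪} ∑_{j ≥ 1} exp(iγ j log Nv / T) / (j Γ(1 + j log Nv / T)) · c(v)^j`,

   where the series converges absolutely in `ℂ[G]`, `exp` is the exponential of `ℂ[G]` and `[x]_g` the coefficient of `g`.
3. RUBIN'S CONJECTURE. Let `η_1, …, η_r ∈ U_{S,T}` be a basis of the `e_r`-part of `ℚ U_{S,T}` over `ℚ[G] e_r`, and
   for `ψ_1, …, ψ_r ∈ Hom(U_{S,T}, ℤ[G])` let `y_ψ ∈ e_r ℂ[G]` be the quotient of `det(ψ_i(η_j)) e_r ∈ ℚ[G]` by the
   regulator `φ(λ(η_1 ∧ ⋯ ∧ η_r))`, which is invertible in `e_r ℂ[G]`. The conjecture for these data is the integrality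
   `y_ψ Θ^(r)_{S,T}(0) ∈ ℤ[G]` for all `ψ`. For any family `(y_i)` of elements of `ℂ[G]`: all the `y_i Θ^(r)_{S,T}(0)` are in
   `ℤ[G]` if and only if for every `i` the product of `y_i` with the elements in 2. comes arbitrarily close to `ℤ[G]`
   for arbitrarily large `T`, if and only if for every `i` it differs by `O(1/T)` from an element of `ℤ[G]`.
4. The rational form (Stark's conjecture): `Θ^(r)_{S,T}(0)` is a rational combination of the regulators of the
   `r`-tuples of elements of `U_{S,T}` if and only if for some `N ≥ 1` and some integral combination `f` of them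
   `N · (the elements in 2.) = f + O(1/T)`.

Ingredients: Hecke's continuation with the gamma factors (`Pool.Agent.Y773`, `Y772`), the rotated law for series with
complex coefficients (`Pool.Agent.X287.CR`, `X287.ST`); see `Pool.Agent.X156.GL.Theta` for the primes in `V` and `l`.
-/

set_option autoImplicit false
set_option linter.unusedSectionVars false

open Filter Topology Asymptotics
open IsDedekindDomain NumberField Pool.Agent.X156.GL.Theta

namespace Pool.Agent.Results.MP_dd9835_nt.RubinLatticeApproach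

variable {G : Type} [CommGroup G] [Fintype G]

/-- The coefficient of `g` in the product of two elements of `ℂ[G]`. -/
noncomputable def conv (a b : G → ℂ) (g : G) : ℂ := ∑ h, a h * b (h⁻¹ * g)

/-- The coefficients of `a` are integers. -/
def IsIntegral (a : G → ℂ) : Prop := ∀ g, ∃ n : ℤ, a g = n

/-- The set of the elements of `ℤ[G]`. -/
def intSet (G : Type) : Set (G → ℂ) := {f | ∃ n : G → ℤ, ∀ g, f g = n g}

theorem intSet_finite (B : ℝ) : {f : G → ℂ | f ∈ intSet G ∧ ∀ g, ‖f g‖ ≤ B}.Finite := by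
  classical
  obtain ⟨N, hN⟩ := exists_nat_ge B
  have h1 : {n : G → ℤ | ∀ g, n g ∈ Set.Icc (-(N : ℤ)) N}.Finite :=
    Set.Finite.pi' fun _ => Set.finite_Icc _ _
  refine (h1.image (fun (n : G → ℤ) (g : G) => (n g : ℂ))).subset ?_
  rintro f ⟨⟨n, hn⟩, hB⟩
  refine ⟨n, fun g => ?_, funext fun g => (hn g).symm⟩
  have h2 := hB g
  rw [hn g, Complex.norm_intCast] at h2
  have h3 : |(n g : ℝ)| ≤ N := h2.trans hN
  rw [abs_le] at h3
  exact ⟨by exact_mod_cast h3.1, by exact_mod_cast h3.2⟩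

theorem conv_rate (y : G → ℂ) {θ : G → ℂ} {a : ℝ → G → ℂ}
    (h : ∀ g, (fun T : ℝ => a T g - θ g) =O[atTop] (fun T : ℝ => 1 / T)) (g : G) :
    (fun T : ℝ => conv y (a T) g - conv y θ g) =O[atTop] (fun T : ℝ => 1 / T) := by
  have h1 : (fun T : ℝ => ∑ k, y k * (a T (k⁻¹ * g) - θ (k⁻¹ * g))) =O[atTop] (fun T : ℝ => 1 / T) :=
    IsBigO.fun_sum fun k _ => (h (k⁻¹ * g)).const_mul_left _
  refine h1.congr_left fun T => ?_
  unfold conv
  rw [← Finset.sum_sub_distrib]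
  exact Finset.sum_congr rfl fun k _ => by ring

theorem integral_iff (y : G → ℂ) {θ : G → ℂ} {a : ℝ → G → ℂ}
    (h : ∀ g, (fun T : ℝ => a T g - θ g) =O[atTop] (fun T : ℝ => 1 / T)) :
    (IsIntegral (conv y θ) ↔ ∀ ε > 0, ∀ T₀ : ℝ, ∃ T ≥ T₀, ∃ n : G → ℤ, ∀ g, ‖conv y (a T) g - n g‖ < ε) ∧
    (IsIntegral (conv y θ) ↔ ∃ n : G → ℤ, ∀ g,
      (fun T : ℝ => conv y (a T) g - n g) =O[atTop] (fun T : ℝ => 1 / T)) := by
  obtain ⟨h1, h2⟩ := approach_iff (conv_rate y h) (intSet G)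
  have h3 := h2 intSet_finite
  have h4 : IsIntegral (conv y θ) ↔ conv y θ ∈ intSet G := by
    constructor
    · intro h5
      choose n hn using h5
      exact ⟨n, hn⟩
    · rintro ⟨n, hn⟩ g
      exact ⟨n g, hn g⟩
  constructor
  · rw [h4, h3]
    constructor
    · intro h5 ε hε T₀
      obtain ⟨T, hT, f, ⟨n, hn⟩, hf⟩ := h5 ε hε T₀
      refine ⟨T, hT, n, fun g => ?_⟩
      rw [← hn g]
      exact hf g
    · intro h5 ε hε T₀
      obtain ⟨T, hT, n, hn⟩ := h5 ε hε T₀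
      exact ⟨T, hT, fun g => n g, ⟨n, fun _ => rfl⟩, hn⟩
  · rw [h4, h1]
    constructor
    · rintro ⟨f, ⟨n, hn⟩, hf⟩
      refine ⟨n, fun g => ?_⟩
      rw [← hn g]
      exact hf g
    · rintro ⟨n, hn⟩
      exact ⟨fun g => n g, ⟨n, fun _ => rfl⟩, hn⟩

/-- **Rubin's conjecture and sums over primes.** -/
theorem result (K : Type) [Field K] [NumberField K] (𝔪 : Ideal (𝓞 K)) (h0 : 𝔪 ≠ ⊥) (h1 : 𝔪 ≠ ⊤)
    (R : Finset (K →+* ℝ)) (G : Type) [CommGroup G] [Fintype G] (c : Ideal (𝓞 K) → G)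
    (hc : IsClassMap 𝔪 R c) (V : Finset (Places 𝔪)) (hV : ∀ v ∈ V, c v.1.asIdeal = 1)
    (l : List (Places 𝔪)) (γ : ℝ) (hγ : Real.pi / 2 < γ) :
    -- 1. existence, uniqueness, absolute convergence
    (∃ Z : G → ℂ → ℂ, IsTheta 𝔪 c V l Z) ∧
    (∀ Z Z' : G → ℂ → ℂ, IsTheta 𝔪 c V l Z → IsTheta 𝔪 c V l Z' → ∀ g s, s ≠ 1 → Z g s = Z' g s) ∧
    (∀ (T : ℝ) (g : G), 0 < T → Summable fun x => ‖term 𝔪 c γ T g x‖) ∧
    -- 2. the limit formula
    ∃ θ : G → ℝ,
      (∀ Z : G → ℂ → ℂ, IsTheta 𝔪 c V l Z → ∀ g, Tendsto (fun s : ℂ => Z g s /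
        s ^ (R.card + InfinitePlace.nrComplexPlaces K + V.card)) (𝓝[≠] 0) (𝓝 (θ g : ℂ))) ∧
      (∀ g, (fun T : ℝ => approx 𝔪 c (R.card + InfinitePlace.nrComplexPlaces K) V l γ T g - θ g) =O[atTop]
        (fun T : ℝ => 1 / T)) ∧
      -- 3. integrality
      (∀ (ι : Type) (y : ι → G → ℂ),
        ((∀ i, IsIntegral (conv (y i) fun g => (θ g⁻¹ : ℂ))) ↔ ∀ i, ∀ ε > 0, ∀ T₀ : ℝ, ∃ T ≥ T₀, ∃ n : G → ℤ,
          ∀ g, ‖conv (y i) (fun g => approx 𝔪 c (R.card + InfinitePlace.nrComplexPlaces K) V l γ T g⁻¹) g -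
            n g‖ < ε) ∧
        ((∀ i, IsIntegral (conv (y i) fun g => (θ g⁻¹ : ℂ))) ↔ ∀ i, ∃ n : G → ℤ, ∀ g,
          (fun T : ℝ => conv (y i) (fun g => approx 𝔪 c (R.card + InfinitePlace.nrComplexPlaces K) V l γ T
            g⁻¹) g - n g) =O[atTop] (fun T : ℝ => 1 / T))) ∧
      -- 4. the rational form
      (∀ (H : Type) [Field H] [Algebra K H] (art : G ≃* Gal(H/K)) (r : ℕ) (ℓ : Fin r → H → ℝ) (E : Set H),
        (InQ (fun g => (θ g⁻¹ : ℂ)) (regSpan art ℓ E) ↔ ∃ N : ℕ, 1 ≤ N ∧ ∃ f ∈ regSpan art ℓ E, ∀ g,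
          (fun T : ℝ => N * approx 𝔪 c (R.card + InfinitePlace.nrComplexPlaces K) V l γ T g⁻¹ - f g)
            =O[atTop] (fun T : ℝ => 1 / T))) := by
  have hc' : Pool.Agent.X287.ST.IsClassMapR 𝔪 R c := ⟨hc.mul, hc.ray⟩
  obtain ⟨Z₀, hZ₀, -⟩ := Pool.Agent.X287.ST.exists_PZ_ord h1 h0 hc'
  have hT₀ := isTheta_of h1 hc' hV l hZ₀
  obtain ⟨θ, hθ, hrate⟩ := main h1 h0 hc' hV l hγ hT₀
  have hinv : ∀ g, (fun T : ℝ => approx 𝔪 c (R.card + InfinitePlace.nrComplexPlaces K) V l γ T g⁻¹ -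
      (θ g⁻¹ : ℂ)) =O[atTop] (fun T : ℝ => 1 / T) := fun g => hrate g⁻¹
  refine ⟨⟨_, hT₀⟩, fun Z Z' h h' g s hs => isTheta_unique h h' g hs,
    fun T g hT => term_summable hc' γ hT g, θ, fun Z hZ g => ?_, hrate, fun ι y => ⟨?_, ?_⟩,
    fun H _ _ art r ℓ E => (inQ_iff (θ := fun g => (θ g⁻¹ : ℂ)) hinv _).1⟩
  · refine (hθ g).congr' ?_
    have hev : ∀ᶠ s : ℂ in 𝓝 0, s ≠ 1 := isOpen_ne.mem_nhds (by norm_num)
    filter_upwards [hev.filter_mono nhdsWithin_le_nhds] with s hs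
    rw [isTheta_unique hT₀ hZ g hs]
  · exact forall_congr' fun i => (integral_iff (y i) (θ := fun g => (θ g⁻¹ : ℂ))
      (a := fun T g => approx 𝔪 c (R.card + InfinitePlace.nrComplexPlaces K) V l γ T g⁻¹) hinv).1
  · exact forall_congr' fun i => (integral_iff (y i) (θ := fun g => (θ g⁻¹ : ℂ))
      (a := fun T g => approx 𝔪 c (R.card + InfinitePlace.nrComplexPlaces K) V l γ T g⁻¹) hinv).2

end Pool.Agent.Results.MP_dd9835_nt.RubinLatticeApproach
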