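import Pool.Agent.X242.DR7

/-!
# Rubin's conjecture and universal rational weights

Let `H/F` be a finite abelian extension with group `G`, `S`, `T`, `r`, `v_1, …, v_r` as in Rubin's conjecture. Expanding the
Euler factors at `T`, `Θ_{S,T}(s) = ∑_𝔞 c_T(𝔞) N(𝔞)^{-s} σ_𝔞^{-1}` for `Re s > 1`, over the nonzero ideals `𝔞` prime to `S`,
with `c_T(𝔞) = ∏ (1 - q_v)` over the `v` in `T` which divide `𝔞`; `θ = Θ_{S,T}^{(r)}(H/F, 0) ∈ ℝ[G]`.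

For `γ > π/2` with `C_r(γ) = (-1)^r (d/dt)^r (e^{iγt} / Γ(1 + t)) (0) ≠ 0` fix rational numbers `ρ_N(n)`, for every `N`
almost all of them zero, with `|ρ_N(n) - Re (N^r e^{iγ log n / N} / (C_r(γ) Γ(1 + log n / N)))| ≤ 1 / (N n²)`. They depend
only on `r`. Put

`x_N = ∑_𝔞 ρ_N(N 𝔞) c_T(𝔞) σ_𝔞^{-1} ∈ ℚ[G]`,

a finite sum, an element of the rational group ring.

1. `x_N = θ + O(1/N)`: the elements `Θ^{(r)}_{S,T}(H/F, 0)` of `ℝ[G]` for all `H/F`, `S`, `T` are the limits of rational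
   elements which are given by one and the same rational linear combination of the ideals.
2. For every set `𝓛` and map `Ψ : 𝓛 → ℝ[G]` (in Rubin's conjecture `𝓛` is Rubin's lattice and `Ψ = φ ∘ λ`):
   `Ψ(u) = θ` for some `u` in `𝓛` if and only if `x_N → Ψ(u)` for some `u` in `𝓛`.
3. For every closed subset `Λ` of `ℝ[G]` (in Rubin's conjecture `Λ = φ(λ(𝓛))`, which is a lattice in a subspace of `ℝ[G]`
   and so closed): `θ ∈ Λ` if and only if `x_N` comes arbitrarily close to `Λ` for arbitrarily large `N`.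
-/

set_option autoImplicit false

namespace Pool.Agent.Results.MP_dd9835_nt.SmoothedSumsOverIdeals

open Filter Topology NumberField IsDedekindDomain Pool.Agent.X242.DR Asymptotics

/-- The places of a number field: the archimedean places and the maximal ideals. -/
abbrev Place (F : Type) [Field F] [NumberField F] : Type :=
  InfinitePlace F ⊕ HeightOneSpectrum (𝓞 F)

section

variable {F H : Type} [Field F] [NumberField F] [Field H] [NumberField H] [Algebra F H]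

/-- The place `Q` of `H` lies over the place `q` of `F`. -/
def LiesOver : Place H → Place F → Prop
  | .inl w, .inl v => w.comap (algebraMap F H) = v
  | .inr 𝔓, .inr 𝔭 => 𝔓.asIdeal.comap (algebraMap (𝓞 F) (𝓞 H)) = 𝔭.asIdeal
  | _, _ => False

/-- The residue characteristic. -/
noncomputable def resChar (𝔭 : HeightOneSpectrum (𝓞 F)) : ℕ := (Ideal.absNorm 𝔭.asIdeal).minFac

/-- `S`, `T`, `r` and the places `v i` are as in the conjecture. -/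
structure IsRubinData (H : Type) [Field H] [NumberField H] [Algebra F H] (S : Finset (Place F))
    (T : Finset (HeightOneSpectrum (𝓞 F))) (r : ℕ) (v : Fin r → Place F) : Prop where
  arch : ∀ u : InfinitePlace F, Sum.inl u ∈ S
  ram : ∀ 𝔭 : HeightOneSpectrum (𝓞 F), Sum.inr 𝔭 ∉ S → ∀ 𝔓 : HeightOneSpectrum (𝓞 H),
    LiesOver (F := F) (H := H) (.inr 𝔓) (.inr 𝔭) →
      ¬ Ideal.map (algebraMap (𝓞 F) (𝓞 H)) 𝔭.asIdeal ≤ 𝔓.asIdeal ^ 2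
  disj : ∀ 𝔭 ∈ T, Sum.inr 𝔭 ∉ S
  tors : (∃ 𝔭 ∈ T, ∃ 𝔮 ∈ T, resChar 𝔭 ≠ resChar 𝔮) ∨ ∃ 𝔭 ∈ T, Module.finrank ℚ F + 1 < resChar 𝔭
  inj : Function.Injective v
  mem : ∀ i, v i ∈ S
  split : ∀ q ∈ S, q ∈ Set.range v ↔
    Nat.card {Q : Place H // LiesOver Q q} = Module.finrank F H
  card : r + 1 ≤ S.card

/-- `𝔞` is a nonzero ideal which is prime to the finite places in `S`. -/
def PrimeTo (S : Finset (Place F)) (𝔞 : Ideal (𝓞 F)) : Prop :=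
  𝔞 ≠ ⊥ ∧ ∀ 𝔭 : HeightOneSpectrum (𝓞 F), Sum.inr 𝔭 ∈ S → ¬ 𝔞 ≤ 𝔭.asIdeal

/-- `A` is the Artin map `𝔞 ↦ σ_𝔞`: multiplicative on the ideals prime to `S`, and `A 𝔭` is, for every prime `𝔭`
outside `S`, the Frobenius automorphism at all primes `𝔓` of `H` over `𝔭`. -/
structure IsArtinMap (S : Finset (Place F)) (A : Ideal (𝓞 F) → (H ≃ₐ[F] H)) : Prop where
  mul : ∀ 𝔞 𝔟 : Ideal (𝓞 F), PrimeTo S 𝔞 → PrimeTo S 𝔟 → A (𝔞 * 𝔟) = A 𝔞 * A 𝔟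
  frob : ∀ 𝔭 : HeightOneSpectrum (𝓞 F), Sum.inr 𝔭 ∉ S → ∀ 𝔓 : HeightOneSpectrum (𝓞 H),
    LiesOver (F := F) (H := H) (.inr 𝔓) (.inr 𝔭) → ∀ x y : 𝓞 H, (y : H) = A 𝔭.asIdeal (x : H) →
      y - x ^ (Ideal.absNorm 𝔭.asIdeal) ∈ 𝔓.asIdeal

open Classical in
/-- `c_T(𝔞)`: the product of `1 - q_v` over the `v` in `T` which divide `𝔞` -/
noncomputable def cT (T : Finset (HeightOneSpectrum (𝓞 F))) (𝔞 : Ideal (𝓞 F)) : ℤ :=
  ∏ 𝔭 ∈ T, if 𝔞 ≤ 𝔭.asIdeal then 1 - (Ideal.absNorm 𝔭.asIdeal : ℤ) else 1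

/-- The functions `Θ g` are the coefficients of `Θ_{S,T}(s) = ∑ c_T(𝔞) N(𝔞)^{-s} σ_𝔞^{-1}`, and `θ g` those of
`Θ^{(r)}_{S,T}(H/F, 0)`. -/
structure IsTheta (S : Finset (Place F)) (T : Finset (HeightOneSpectrum (𝓞 F))) (r : ℕ)
    (A : Ideal (𝓞 F) → (H ≃ₐ[F] H)) (Θ : (H ≃ₐ[F] H) → ℂ → ℂ) (θ : (H ≃ₐ[F] H) → ℂ) : Prop where
  series : ∀ (g : H ≃ₐ[F] H) (s : ℂ), 1 < s.re →
    HasSum (fun 𝔞 : {𝔞 : Ideal (𝓞 F) // PrimeTo S 𝔞 ∧ A 𝔞 = g⁻¹} =>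
      (cT T 𝔞.1 : ℂ) * ((Ideal.absNorm 𝔞.1 : ℕ) : ℂ) ^ (-s)) (Θ g s)
  entire : ∀ g : H ≃ₐ[F] H, Differentiable ℂ (Θ g)
  lim : ∀ g : H ≃ₐ[F] H, Tendsto (fun s : ℂ => Θ g s / s ^ r) (𝓝[≠] 0) (𝓝 (θ g))

open Classical in
/-- The coefficient of `g` in `x_N = ∑_𝔞 ρ_N(N 𝔞) c_T(𝔞) σ_𝔞^{-1}`, for `ρ = ρ_N`. -/
noncomputable def approx (S : Finset (Place F)) (T : Finset (HeightOneSpectrum (𝓞 F)))
    (A : Ideal (𝓞 F) → (H ≃ₐ[F] H)) (ρ : ℕ →₀ ℚ) (g : H ≃ₐ[F] H) : ℚ :=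
  comb ρ (byNorm fun 𝔞 : Ideal (𝓞 F) => if PrimeTo S 𝔞 ∧ A 𝔞 = g⁻¹ then (cT T 𝔞 : ℚ) else 0)

open Classical in
theorem cT_le (T : Finset (HeightOneSpectrum (𝓞 F))) (𝔞 : Ideal (𝓞 F)) :
    ‖((cT T 𝔞 : ℤ) : ℂ)‖ ≤ ∏ 𝔭 ∈ T, ((Ideal.absNorm 𝔭.asIdeal : ℝ) + 1) := by
  unfold cT
  push_cast
  rw [norm_prod]
  refine Finset.prod_le_prod (fun _ _ => norm_nonneg _) fun 𝔭 _ => ?_
  have h0 : (0 : ℝ) ≤ (Ideal.absNorm 𝔭.asIdeal : ℝ) := Nat.cast_nonneg _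
  split_ifs
  · refine (norm_sub_le _ _).trans ?_
    rw [norm_one, Complex.norm_natCast]
    linarith
  · rw [norm_one]
    linarith

theorem main {r : ℕ} {γ : ℝ} (hγ : Real.pi / 2 < γ) (hC : Ck r γ ≠ 0) {ρ : ℕ → ℕ →₀ ℚ}
    (hρ : IsRational r γ ρ) {S : Finset (Place F)} {T : Finset (HeightOneSpectrum (𝓞 F))}
    {A : Ideal (𝓞 F) → (H ≃ₐ[F] H)} {Θ : (H ≃ₐ[F] H) → ℂ → ℂ} {θ : (H ≃ₐ[F] H) → ℂ}
    (h : IsTheta S T r A Θ θ) (g : H ≃ₐ[F] H) :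
    (θ g).im = 0 ∧ (fun N : ℕ => (approx S T A (ρ N) g : ℝ) - (θ g).re) =O[atTop]
      (fun N : ℕ => 1 / (N : ℝ)) := by
  classical
  set c : Ideal (𝓞 F) → ℂ := fun 𝔞 => if PrimeTo S 𝔞 ∧ A 𝔞 = g⁻¹ then ((cT T 𝔞 : ℤ) : ℂ) else 0
    with hc
  have hc0 : c ⊥ = 0 := by
    rw [hc]
    simp only
    rw [if_neg]
    intro h2
    exact h2.1.1 rfl
  have hcb : ∀ 𝔞, ‖c 𝔞‖ ≤ ∏ 𝔭 ∈ T, ((Ideal.absNorm 𝔭.asIdeal : ℝ) + 1) := by
    intro 𝔞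
    rw [hc]
    simp only
    split_ifs
    · exact cT_le T 𝔞
    · rw [norm_zero]
      exact Finset.prod_nonneg fun 𝔭 _ => by positivity
  have hser : ∀ s : ℂ, 1 < s.re → HasSum (fun 𝔞 : Ideal (𝓞 F) =>
      c 𝔞 * ((Ideal.absNorm 𝔞 : ℕ) : ℂ) ^ (-s)) (Θ g s) := by
    intro s hs
    have h1 := (hasSum_subtype_iff_indicator (s := {𝔞 : Ideal (𝓞 F) | PrimeTo S 𝔞 ∧ A 𝔞 = g⁻¹})
      (f := fun 𝔞 : Ideal (𝓞 F) => (cT T 𝔞 : ℂ) * ((Ideal.absNorm 𝔞 : ℕ) : ℂ) ^ (-s))).1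
      (h.series g s hs)
    refine h1.congr_fun fun 𝔞 => ?_
    rw [hc]
    simp only
    by_cases h2 : PrimeTo S 𝔞 ∧ A 𝔞 = g⁻¹
    · rw [Set.indicator_of_mem (show 𝔞 ∈ {𝔞 | PrimeTo S 𝔞 ∧ A 𝔞 = g⁻¹} from h2), if_pos h2]
    · rw [Set.indicator_of_notMem (show 𝔞 ∉ {𝔞 | PrimeTo S 𝔞 ∧ A 𝔞 = g⁻¹} from h2), if_neg h2,
        zero_mul]
  have hS := isSeries_ideals hcb hc0 (fun x _ _ => ((h.entire g).analyticAt _).meromorphicAt) hser
  have h1 := hS.universal (byNorm_zero hc0) r (θ g) hγ hC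
    (bigO_of_lim ((h.entire g).analyticAt 0) (h.lim g)) hρ
  have e1 : ∀ N, comb (ρ N) (byNorm c) = (((approx S T A (ρ N) g : ℚ) : ℝ) : ℂ) := by
    intro N
    have e2 : byNorm c = fun n => (Rat.castHom ℂ) (byNorm (fun 𝔞 : Ideal (𝓞 F) =>
        if PrimeTo S 𝔞 ∧ A 𝔞 = g⁻¹ then (cT T 𝔞 : ℚ) else 0) n) := by
      funext n
      have e3 := byNorm_map (K := F) (Rat.castHom ℂ).toAddMonoidHom (fun 𝔞 : Ideal (𝓞 F) =>
        if PrimeTo S 𝔞 ∧ A 𝔞 = g⁻¹ then (cT T 𝔞 : ℚ) else 0) n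
      refine Eq.trans ?_ e3
      congr 1
      funext 𝔞
      rw [hc]
      simp only
      split_ifs
      · simp
      · simp
    rw [e2, comb_hom (Rat.castHom ℂ) (ρ N)]
    simp [approx]
  simp only [e1] at h1
  have him : (θ g).im = 0 := by
    have h2 : Tendsto (fun N : ℕ => (((approx S T A (ρ N) g : ℚ) : ℝ) : ℂ) - θ g) atTop (𝓝 0) :=
      h1.trans_tendsto tendsto_one_div_atTop_nhds_zero_nat
    have h3 := (Complex.continuous_im.tendsto 0).comp h2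
    have h4 : (Complex.im ∘ fun N : ℕ => (((approx S T A (ρ N) g : ℚ) : ℝ) : ℂ) - θ g) =
        fun _ => -(θ g).im := by
      funext N
      simp
    rw [h4] at h3
    have h5 := tendsto_nhds_unique h3 tendsto_const_nhds
    simpa using h5.symm
  refine ⟨him, ?_⟩
  obtain ⟨B, hB⟩ := h1.bound
  refine IsBigO.of_bound B ?_
  filter_upwards [hB] with N hN
  refine le_trans ?_ hN
  rw [← Complex.norm_real]
  refine le_of_eq ?_
  congr 1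
  apply Complex.ext <;> simp [him]

end

/-- **Rubin's conjecture and universal rational weights.** -/
theorem result :
    -- 0. the weights exist
    ((∀ r : ℕ, {γ : ℝ | Ck r γ = 0}.Finite) ∧ ∀ (r : ℕ) (γ : ℝ), ∃ ρ, IsRational r γ ρ) ∧
    ∀ (r : ℕ) (γ : ℝ), Real.pi / 2 < γ → Ck r γ ≠ 0 → ∀ ρ : ℕ → ℕ →₀ ℚ, IsRational r γ ρ →
    ∀ (F H : Type) [Field F] [NumberField F] [Field H] [NumberField H] [Algebra F H]
      [IsGalois F H], (∀ σ τ : H ≃ₐ[F] H, σ * τ = τ * σ) →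
    ∀ (S : Finset (Place F)) (T : Finset (HeightOneSpectrum (𝓞 F))) (v : Fin r → Place F),
      IsRubinData H S T r v → ∀ A : Ideal (𝓞 F) → (H ≃ₐ[F] H), IsArtinMap S A →
    ∀ (Θ : (H ≃ₐ[F] H) → ℂ → ℂ) (θ : (H ≃ₐ[F] H) → ℂ), IsTheta S T r A Θ θ →
    -- 1. the approximations
    (∀ g : H ≃ₐ[F] H, (θ g).im = 0 ∧
      (fun N : ℕ => (approx S T A (ρ N) g : ℝ) - (θ g).re) =O[atTop]
        (fun N : ℕ => 1 / (N : ℝ))) ∧
    -- 2. arbitrary families of candidates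
    (∀ (𝓛 : Type) (Ψ : 𝓛 → (H ≃ₐ[F] H) → ℝ),
      (∀ u : 𝓛, (∀ g, (Ψ u g : ℂ) = θ g) ↔
        ∀ g, Tendsto (fun N : ℕ => (approx S T A (ρ N) g : ℝ)) atTop (𝓝 (Ψ u g))) ∧
      ((∃ u : 𝓛, ∀ g, (Ψ u g : ℂ) = θ g) ↔
        ∃ u : 𝓛, ∀ g, Tendsto (fun N : ℕ => (approx S T A (ρ N) g : ℝ)) atTop (𝓝 (Ψ u g)))) ∧
    -- 3. closed sets, for example lattices
    (∀ Λ : Set ((H ≃ₐ[F] H) → ℝ), IsClosed Λ →
      ((∃ y ∈ Λ, ∀ g, (y g : ℂ) = θ g) ↔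
        ∀ ε : ℝ, 0 < ε → ∀ N₀ : ℕ, ∃ N ≥ N₀, ∃ y ∈ Λ, ∀ g,
          |(approx S T A (ρ N) g : ℝ) - y g| < ε)) := by
  refine ⟨⟨rot_finite, exists_rational⟩, ?_⟩
  intro r γ hγ hC ρ hρ F H _ _ _ _ _ _ _hab S T v _hd A _hA Θ θ h
  have hmain := fun g => main hγ hC hρ h g
  have hlim : ∀ g, Tendsto (fun N : ℕ => (approx S T A (ρ N) g : ℝ)) atTop (𝓝 (θ g).re) := by
    intro g
    have h1 := (hmain g).2.trans_tendsto tendsto_one_div_atTop_nhds_zero_nat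
    have h2 := h1.add_const (θ g).re
    simpa using h2
  have hre : ∀ g, θ g = ((θ g).re : ℂ) := by
    intro g
    apply Complex.ext <;> simp [(hmain g).1]
  have hiff : ∀ (𝓛 : Type) (Ψ : 𝓛 → (H ≃ₐ[F] H) → ℝ) (u : 𝓛), (∀ g, (Ψ u g : ℂ) = θ g) ↔
      ∀ g, Tendsto (fun N : ℕ => (approx S T A (ρ N) g : ℝ)) atTop (𝓝 (Ψ u g)) := by
    intro 𝓛 Ψ u
    refine forall_congr' fun g => ?_
    constructor
    · intro h1
      have h2 : Ψ u g = (θ g).re := by rw [← h1, Complex.ofReal_re]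
      rw [h2]
      exact hlim g
    · intro h1
      rw [tendsto_nhds_unique h1 (hlim g)]
      exact (hre g).symm
  refine ⟨hmain, fun 𝓛 Ψ => ⟨hiff 𝓛 Ψ, exists_congr fun u => hiff 𝓛 Ψ u⟩, fun Λ hΛ => ?_⟩
  have hfin : Finite (H ≃ₐ[F] H) := by
    have : Module.Finite F H := Module.Finite.of_restrictScalars_finite ℚ F H
    infer_instance
  constructor
  · rintro ⟨y, hy, hyθ⟩ ε hε N₀
    have h1 : ∀ᶠ N : ℕ in atTop, ∀ g, |(approx S T A (ρ N) g : ℝ) - y g| < ε := by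
      refine eventually_all.2 fun g => ?_
      have h2 : y g = (θ g).re := by rw [← hyθ g, Complex.ofReal_re]
      have h3 := (hlim g).sub_const (θ g).re
      rw [sub_self] at h3
      have h4 := h3.abs
      rw [abs_zero] at h4
      rw [h2]
      exact h4.eventually (gt_mem_nhds hε)
    obtain ⟨N, hN1, hN2⟩ := (h1.and (eventually_ge_atTop N₀)).exists
    exact ⟨N, hN2, y, hy, hN1⟩
  · intro h1
    have hmem : (fun g => (θ g).re) ∈ closure Λ := by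
      have := Fintype.ofFinite (H ≃ₐ[F] H)
      rw [Metric.mem_closure_iff]
      intro ε hε
      have h2 : ∀ᶠ N : ℕ in atTop, ∀ g, |(approx S T A (ρ N) g : ℝ) - (θ g).re| < ε / 2 := by
        refine eventually_all.2 fun g => ?_
        have h3 := (hlim g).sub_const (θ g).re
        rw [sub_self] at h3
        have h4 := h3.abs
        rw [abs_zero] at h4
        exact h4.eventually (gt_mem_nhds (half_pos hε))
      obtain ⟨N₀, hN₀⟩ := eventually_atTop.1 h2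
      obtain ⟨N, hN, y, hy, hyN⟩ := h1 (ε / 2) (half_pos hε) N₀
      refine ⟨y, hy, ?_⟩
      rw [dist_pi_lt_iff hε]
      intro g
      rw [Real.dist_eq]
      have h3 := hN₀ N hN g
      have h4 := hyN g
      have h5 : (θ g).re - y g = ((approx S T A (ρ N) g : ℝ) - y g) -
          ((approx S T A (ρ N) g : ℝ) - (θ g).re) := by ring
      rw [h5]
      refine (abs_sub _ _).trans_lt ?_
      linarith
    rw [hΛ.closure_eq] at hmem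
    exact ⟨_, hmem, fun g => (hre g).symm⟩

end Pool.Agent.Results.MP_dd9835_nt.SmoothedSumsOverIdeals
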