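import Pool.Agent.X27.NR.Count

/-!
# The integral conjecture of Rubin and the non-cyclic Sylow subgroups of the Galois group

Let `H / F` be a finite abelian extension with group `G`, `U = U_{S,T}` (a `ℤ[G]`-module), `v₁, …, v_r` places in `S`
that split completely in `H`, `ℓ_i = φ_i ∘ λ : U → ℝ[G]` and `Θ = Θ^{(r)}_{S,T}(H/F, 0)`. The conjecture of Rubin
for `H^D / F`, `D ≤ G`, and the same `S`, `T`, `v_i` only involves these data:
* `U_{S,T}(H^D) = U^D`, and `ℤ[G/D] ≅ N_D ℤ[G]` by `g D ↦ N_D g`, under which `Hom(U^D, ℤ[G/D])` becomes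
  `Hom_{ℤ[G]}(U^D, ℤ[G])`, and a determinant of size `r ≥ 1` is multiplied by `|D|^{r-1}`.
* as the places `v_i` split completely, `ℓ_i` on `U^D` is the map `φ_i ∘ λ` of `H^D` in the same way.
* `Θ` of `H^D` is the image of `Θ` in `ℝ[G/D]`, that is `N_D Θ`.
So with `u = y / m` the conjecture for `H^D` is the predicate `Rubin` below. For `D = ⊥` it is: there are `m > 0` and
`y ∈ ⋀^r U` such that `ψ(y) ∈ m ℤ[G]` for all `ψ = ψ₁ ∧ ⋯ ∧ ψ_r`, `φ(λ(y)) = m Θ`, and `y ∈ e_r ℚ ⋀^r U`. An element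
`y` of `⋀^r U^D` is given as a sum of terms `a x₁ ∧ ⋯ ∧ x_r`. Its image in `ℚ ⋀^r U^D` is determined by the
values `ψ(y) = det ψ_i(x_j)` at all `ψ` (as `ℚ U^D` is a finitely generated projective module over `ℚ[G/D]`), so
`y ∈ e_r ℚ ⋀^r U^D` if and only if `a ψ(y) = 0` for all `ψ` and all `a ∈ ℤ[G]` with `a N_D Θ = 0`.

Theorem. Let `p` be a prime number.
* If `E / D ≅ C_q × C_q` and the conjecture holds for the fields `H^{D'}`, `D < D' ≤ E`, then it holds for `H^D`
  up to the factor `q`.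
* The conjecture for `H^D` is equivalent to its `p`-parts (it holds up to a factor prime to `p`) for all `p`.
* The `p`-part for all `H^D` follows from the `p`-part for those `H^D` whose group `G / D` has cyclic Sylow
  `q`-subgroups for all `q ≠ p`, that is `G / D ≅ P × C` with a `p`-group `P` and a cyclic group `C`.
* The conjecture for all `H^D` follows from the conjecture for those `H^D` whose group has at most one
  non-cyclic Sylow subgroup.
-/

set_option autoImplicit false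

open Finset

namespace Pool.Agent.Results.MP_dd9835_nt.TwoNoncyclicSylows

open Pool.Agent.X27.NR

section defs

section
variable {R M A : Type} [CommRing R] [AddCommGroup M] [Module R M] [CommRing A] [Algebra R A]
  {r : ℕ} (ψ : Fin r → (M →ₗ[R] A))

/-- The determinant of the matrix `ψ_i(x_j)`. -/
noncomputable def detFun (x : Fin r → M) : A := Matrix.det (Matrix.of fun j i => ψ i (x j))

variable (R) in
/-- The value of `ψ_1 ∧ ⋯ ∧ ψ_r` at an element of the exterior power `⋀^r M` which is given as a formal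
`R`-linear combination of `x_1 ∧ ⋯ ∧ x_r`: the combination of `det ψ_i(x_j)`. -/
noncomputable def wedge : ((Fin r → M) →₀ R) →ₗ[R] A := Finsupp.linearCombination R (detFun ψ)

end

variable {G : Type} [CommGroup G] [Fintype G]
variable (U : Type) [AddCommGroup U] [Module (MonoidAlgebra ℤ G) U]

omit [Fintype G] in
variable {U} in
theorem inv_smul (c : MonoidAlgebra ℤ G) (x : U) (d : G) (h : MonoidAlgebra.of ℤ G d • x = x) :
    MonoidAlgebra.of ℤ G d • (c • x) = c • x := by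
  rw [smul_smul, mul_comm, ← smul_smul, h]

omit [Fintype G] in
variable {U} in
theorem inv_add (a b : U) (d : G) (h : MonoidAlgebra.of ℤ G d • a = a)
    (h' : MonoidAlgebra.of ℤ G d • b = b) : MonoidAlgebra.of ℤ G d • (a + b) = a + b := by
  rw [smul_add, h, h']

/-- The submodule `U^D`. -/
def inv (D : Subgroup G) : Submodule (MonoidAlgebra ℤ G) U where
  carrier := {x | ∀ d ∈ D, MonoidAlgebra.of ℤ G d • x = x}
  add_mem' := fun {a b} ha hb d hd => inv_add a b d (ha d hd) (hb d hd)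
  zero_mem' := fun _ _ => smul_zero _
  smul_mem' := fun c x hx d hd => inv_smul c x d (hx d hd)

open Classical in
/-- The norm element `N_D = ∑ d`, `d ∈ D`. -/
noncomputable def nrm (D : Subgroup G) : MonoidAlgebra ℤ G :=
  ∑ d ∈ univ.filter (fun d : G => d ∈ D), MonoidAlgebra.of ℤ G d

variable {U} {A : Type} [CommRing A] [Algebra (MonoidAlgebra ℤ G) A] {r : ℕ}

/-- The statement of the conjecture for `H^D` with `θ` in place of `N_D Θ`, for the element `u = y / m`:
`ψ(y) ∈ m |D|^{r-1} N_D ℤ[G]` for all `ψ`, `φ(λ(y)) = m |D|^{r-1} θ`, and `a ψ(y) = 0` for all `ψ` and all `a` which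
kill `N_D Θ`. -/
def Realised (ℓ : Fin r → (U →ₗ[MonoidAlgebra ℤ G] A)) (Θ : A) (D : Subgroup G) (θ : A) : Prop :=
  ∃ (m : ℕ) (y : (Fin r → inv U D) →₀ MonoidAlgebra ℤ G), 0 < m ∧
    (∀ ψ : Fin r → (inv U D →ₗ[MonoidAlgebra ℤ G] MonoidAlgebra ℤ G),
      ((m * Nat.card D ^ (r - 1) : ℕ) : MonoidAlgebra ℤ G) * nrm D ∣ wedge _ ψ y ∧
      ∀ a : MonoidAlgebra ℤ G, a • (nrm D • Θ) = 0 → a * wedge _ ψ y = 0) ∧
    wedge _ (fun i => ℓ i ∘ₗ (inv U D).subtype) y = (m * Nat.card D ^ (r - 1)) • θ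

/-- The conjecture of Rubin for `H^D`. -/
def Rubin (ℓ : Fin r → (U →ₗ[MonoidAlgebra ℤ G] A)) (Θ : A) (D : Subgroup G) : Prop :=
  Realised ℓ Θ D (nrm D • Θ)

/-- The `p`-part of the conjecture of Rubin for `H^D`: it holds up to a factor which is prime to `p`. -/
def RubinAt (p : ℕ) (ℓ : Fin r → (U →ₗ[MonoidAlgebra ℤ G] A)) (Θ : A) (D : Subgroup G) : Prop :=
  ∃ k : ℕ, ¬ p ∣ k ∧ Realised ℓ Θ D (k • (nrm D • Θ))

/-- `G / D` contains a subgroup isomorphic to `C_q × C_q`: the Sylow `q`-subgroup of `G / D` is not cyclic. -/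
def NoncyclicAt (D : Subgroup G) (q : ℕ) : Prop := ∃ E : Subgroup G, IsSquare D E q

/-- The Sylow `q`-subgroups of `G / D` are cyclic for `q ≠ p`. -/
def CyclicOutside (p : ℕ) (D : Subgroup G) : Prop := ∀ q : ℕ, NoncyclicAt D q → q = p

/-- `G / D` has at most one non-cyclic Sylow subgroup. -/
def OneNoncyclic (D : Subgroup G) : Prop := ∀ q q' : ℕ, NoncyclicAt D q → NoncyclicAt D q' → q = q'

end defs

section
variable {G : Type} [CommGroup G] [Fintype G]

theorem nrm_dvd {D D' : Subgroup G} (h : D ≤ D') : nrm D ∣ nrm D' := by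
  classical
  unfold nrm
  rw [← sum_fiberwise (univ.filter fun d : G => d ∈ D') (fun d : G => (d : G ⧸ D))
    (fun d => MonoidAlgebra.of ℤ G d)]
  refine Finset.dvd_sum fun x _ => ?_
  by_cases hx : ∃ e ∈ D', (e : G ⧸ D) = x
  · obtain ⟨e, he, rfl⟩ := hx
    refine ⟨MonoidAlgebra.of ℤ G e, ?_⟩
    rw [sum_mul]
    refine (sum_bij (fun d _ => d * e) ?_ ?_ ?_ ?_).symm
    · intro d hd
      rw [mem_filter] at hd
      rw [mem_filter, mem_filter]
      refine ⟨⟨mem_univ _, mul_mem (h hd.2) he⟩, ?_⟩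
      rw [eq_comm, QuotientGroup.eq]
      have : e⁻¹ * (d * e) = d := by rw [mul_comm d e, inv_mul_cancel_left]
      rw [this]
      exact hd.2
    · intro a _ b _ hab
      exact mul_right_cancel hab
    · intro b hb
      rw [mem_filter, mem_filter] at hb
      refine ⟨b * e⁻¹, ?_, by rw [inv_mul_cancel_right]⟩
      rw [mem_filter]
      refine ⟨mem_univ _, ?_⟩
      have h1 := hb.2
      rw [eq_comm, QuotientGroup.eq] at h1
      rwa [mul_comm] at h1
    · intro a _
      rw [map_mul]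
  · have : (univ.filter fun d : G => d ∈ D').filter (fun d : G => (d : G ⧸ D) = x) = ∅ := by
      rw [filter_eq_empty_iff]
      intro d hd hdx
      rw [mem_filter] at hd
      exact hx ⟨d, hd.2, hdx⟩
    rw [this, sum_empty]
    exact dvd_zero _

theorem card_split {D D' : Subgroup G} (h : D ≤ D') : ∃ c : ℕ, 0 < c ∧ Nat.card D' = c * Nat.card D := by
  obtain ⟨c, hc⟩ := Subgroup.card_dvd_of_le h
  refine ⟨c, ?_, by rw [hc, mul_comm]⟩
  rcases Nat.eq_zero_or_pos c with h0 | h0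
  · rw [h0, mul_zero] at hc
    exact absurd hc Nat.card_pos.ne'
  · exact h0

variable {U : Type} [AddCommGroup U] [Module (MonoidAlgebra ℤ G) U]
variable {A : Type} [CommRing A] [Algebra (MonoidAlgebra ℤ G) A] {r : ℕ}

theorem wedge_map {R M N B : Type} [CommRing R] [AddCommGroup M] [Module R M] [AddCommGroup N] [Module R N]
    [CommRing B] [Algebra R B] {r : ℕ} (f : M →ₗ[R] N) (ψ : Fin r → (N →ₗ[R] B))
    (y : (Fin r → M) →₀ R) :
    wedge R ψ (y.mapDomain fun x i => f (x i)) = wedge R (fun i => ψ i ∘ₗ f) y := by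
  unfold wedge
  rw [Finsupp.linearCombination_mapDomain]
  rfl

omit [Fintype G] in
theorem inv_anti {D D' : Subgroup G} (h : D ≤ D') : inv U D' ≤ inv U D :=
  fun _ hx d hd => hx d (h hd)

variable (ℓ : Fin r → (U →ₗ[MonoidAlgebra ℤ G] A)) (Θ : A)

/-- The elements `θ` for which the statement holds. -/
def grp (D : Subgroup G) : AddSubgroup A where
  carrier := {θ | Realised ℓ Θ D θ}
  zero_mem' := by
    refine ⟨1, 0, one_pos, fun ψ => ⟨?_, fun a _ => ?_⟩, ?_⟩
    · rw [map_zero]; exact dvd_zero _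
    · rw [map_zero, mul_zero]
    · rw [map_zero, smul_zero]
  add_mem' := by
    rintro θ θ' ⟨m, y, h1, h2, h3⟩ ⟨m', y', h1', h2', h3'⟩
    refine ⟨m * m', m' • y + m • y', Nat.mul_pos h1 h1', fun ψ => ⟨?_, fun a ha => ?_⟩, ?_⟩
    · rw [map_add, map_nsmul, map_nsmul]
      obtain ⟨c, hc⟩ := (h2 ψ).1
      obtain ⟨c', hc'⟩ := (h2' ψ).1
      refine ⟨c + c', ?_⟩
      rw [hc, hc', nsmul_eq_mul, nsmul_eq_mul]
      push_cast
      ring
    · rw [map_add, map_nsmul, map_nsmul, mul_add, mul_smul_comm, mul_smul_comm, (h2 ψ).2 a ha,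
        (h2' ψ).2 a ha, smul_zero, smul_zero, add_zero]
    · rw [map_add, map_nsmul, map_nsmul, h3, h3', smul_smul, smul_smul, smul_add]
      congr 2
      · ring
      · ring
  neg_mem' := by
    rintro θ ⟨m, y, h1, h2, h3⟩
    refine ⟨m, -y, h1, fun ψ => ⟨?_, fun a ha => ?_⟩, ?_⟩
    · rw [map_neg]; exact (h2 ψ).1.neg_right
    · rw [map_neg, mul_neg, (h2 ψ).2 a ha, neg_zero]
    · rw [map_neg, h3, smul_neg]

theorem mem_grp {D : Subgroup G} {θ : A} : θ ∈ grp ℓ Θ D ↔ Realised ℓ Θ D θ := Iff.rfl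

theorem grp_mono {D D' : Subgroup G} (h : D ≤ D') : grp ℓ Θ D' ≤ grp ℓ Θ D := by
  rintro θ ⟨m, y, h1, h2, h3⟩
  obtain ⟨c, hc0, hc⟩ := card_split h
  have h6 : m * c ^ (r - 1) * Nat.card D ^ (r - 1) = m * Nat.card D' ^ (r - 1) := by
    rw [hc, mul_pow]; ring
  refine ⟨m * c ^ (r - 1), y.mapDomain fun x i => Submodule.inclusion (inv_anti h) (x i),
    Nat.mul_pos h1 (pow_pos hc0 _), fun ψ => ⟨?_, fun a ha => ?_⟩, ?_⟩
  · rw [wedge_map]
    have h5 := (h2 (fun i => ψ i ∘ₗ Submodule.inclusion (inv_anti h))).1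
    refine dvd_trans ?_ h5
    rw [h6]
    exact mul_dvd_mul_left _ (nrm_dvd h)
  · rw [wedge_map]
    obtain ⟨b, hb⟩ := nrm_dvd h
    refine (h2 (fun i => ψ i ∘ₗ Submodule.inclusion (inv_anti h))).2 a ?_
    rw [hb, smul_smul, mul_comm (nrm D) b, ← mul_assoc, mul_comm a b, mul_assoc, ← smul_smul,
      ← smul_smul, ha, smul_zero]
  · rw [wedge_map]
    rw [h6, ← h3]
    rfl

/-- the same up to factors which are prime to `p` -/
def grpAt (p : ℕ) (hp : p.Prime) (D : Subgroup G) : AddSubgroup A where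
  carrier := {θ | ∃ k : ℕ, ¬ p ∣ k ∧ k • θ ∈ grp ℓ Θ D}
  zero_mem' := ⟨1, hp.one_lt.ne' ∘ Nat.dvd_one.1, by rw [smul_zero]; exact zero_mem _⟩
  add_mem' := by
    rintro θ θ' ⟨k, h1, h2⟩ ⟨k', h1', h2'⟩
    refine ⟨k * k', fun hd => ?_, ?_⟩
    · rcases (Nat.Prime.dvd_mul hp).1 hd with h | h
      · exact h1 h
      · exact h1' h
    · have e : (k * k') • (θ + θ') = k' • (k • θ) + k • (k' • θ') := by
        rw [smul_add, smul_smul, smul_smul, mul_comm k' k]
      rw [e]
      exact add_mem (nsmul_mem h2 _) (nsmul_mem h2' _)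
  neg_mem' := by
    rintro θ ⟨k, h1, h2⟩
    exact ⟨k, h1, by rw [smul_neg]; exact neg_mem h2⟩

theorem mem_grpAt {p : ℕ} {hp : p.Prime} {D : Subgroup G} {θ : A} :
    θ ∈ grpAt ℓ Θ p hp D ↔ ∃ k : ℕ, ¬ p ∣ k ∧ k • θ ∈ grp ℓ Θ D := Iff.rfl

theorem grpAt_mono {p : ℕ} (hp : p.Prime) {D D' : Subgroup G} (h : D ≤ D') :
    grpAt ℓ Θ p hp D' ≤ grpAt ℓ Θ p hp D := by
  rintro θ ⟨k, h1, h2⟩
  exact ⟨k, h1, grp_mono ℓ Θ h h2⟩

/-- the relation for the norm elements -/
theorem norm_relation {D E : Subgroup G} {q : ℕ} (hsq : IsSquare D E q)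
    (J : Subgroup G → AddSubgroup A) (hJ : ∀ D D' : Subgroup G, D ≤ D' → J D' ≤ J D)
    (h : ∀ D' : Subgroup G, D < D' → D' ≤ E → nrm D' • Θ ∈ J D') : q • (nrm D • Θ) ∈ J D := by
  classical
  have : Fintype (Subgroup G) := Fintype.ofFinite _
  have hD0 : 0 < Nat.card D := Nat.card_pos
  have hlt : ∀ D' : Subgroup G, D ≤ D' → Nat.card D' ≠ Nat.card D → D < D' := by
    intro D' h1 h2
    refine lt_of_le_of_ne h1 ?_
    rintro rfl
    exact h2 rfl
  have key : q • (nrm D • Θ) + nrm E • Θ = ∑ D' ∈ between D E q, nrm D' • Θ := by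
    rw [← sum_smul, ← smul_assoc, ← add_smul]
    congr 1
    unfold nrm
    convert (relation hsq (fun e => MonoidAlgebra.of ℤ G e)).symm
  have h2 : q • (nrm D • Θ) = (∑ D' ∈ between D E q, nrm D' • Θ) - nrm E • Θ := by
    rw [← key]; abel
  rw [h2]
  obtain ⟨hq, hDE, hc, hp⟩ := hsq
  have hq2 : 2 ≤ q := hq.two_le
  refine sub_mem (sum_mem fun D' hD' => ?_) ?_
  · obtain ⟨h3, h4, h5⟩ := mem_between.1 hD'
    refine hJ D D' h3 (h D' (hlt D' h3 ?_) h4)
    rw [h5]
    intro h6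
    have h7 := Nat.mul_le_mul_right (Nat.card D) hq2
    omega
  · refine hJ D E hDE (h E (hlt E hDE ?_) le_rfl)
    rw [hc]
    intro h6
    have h7 := Nat.mul_le_mul_right (Nat.card D) (show 4 ≤ q ^ 2 by nlinarith)
    omega

theorem grp_bezout {D : Subgroup G} {θ : A} (h : ∀ p : ℕ, p.Prime → ∃ k : ℕ, ¬ p ∣ k ∧ k • θ ∈ grp ℓ Θ D) :
    θ ∈ grp ℓ Θ D := by
  classical
  have hex : ∃ n : ℕ, 0 < n ∧ n • θ ∈ grp ℓ Θ D := by
    obtain ⟨k, h1, h2⟩ := h 2 Nat.prime_two
    refine ⟨k, Nat.pos_of_ne_zero ?_, h2⟩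
    rintro rfl
    exact h1 (dvd_zero _)
  have hn := Nat.find_spec hex
  have hmin := fun m hm => Nat.find_min hex (m := m) hm
  set n := Nat.find hex with hndef
  by_cases h1 : n = 1
  · have h2 := hn.2
    rw [h1, one_smul] at h2
    exact h2
  · exfalso
    obtain ⟨k, h2, h3⟩ := h n.minFac (Nat.minFac_prime h1)
    have hg : (Nat.gcd n k) • θ ∈ grp ℓ Θ D := by
      have h4 := Nat.gcd_eq_gcd_ab n k
      have h5 : ((Nat.gcd n k : ℕ) : ℤ) • θ ∈ grp ℓ Θ D := by
        rw [h4, add_smul, mul_comm (n : ℤ), mul_comm (k : ℤ), mul_smul, mul_smul]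
        refine add_mem (zsmul_mem ?_ _) (zsmul_mem ?_ _)
        · rw [natCast_zsmul]; exact hn.2
        · rw [natCast_zsmul]; exact h3
      rwa [natCast_zsmul] at h5
    have h4 : Nat.gcd n k < n := by
      refine lt_of_le_of_ne (Nat.gcd_le_left _ hn.1) ?_
      intro h5
      exact h2 ((Nat.minFac_dvd n).trans (Nat.gcd_eq_left_iff_dvd.1 h5))
    exact hmin _ h4 ⟨Nat.gcd_pos_of_pos_left _ hn.1, hg⟩

end

/-- **The conjecture of Rubin and the non-cyclic Sylow subgroups.** -/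
theorem result (G : Type) [CommGroup G] [Fintype G] (U : Type) [AddCommGroup U]
    [Module (MonoidAlgebra ℤ G) U] (A : Type) [CommRing A] [Algebra (MonoidAlgebra ℤ G) A] (r : ℕ)
    (ℓ : Fin r → (U →ₗ[MonoidAlgebra ℤ G] A)) (Θ : A) :
    (∀ (D E : Subgroup G) (q : ℕ), IsSquare D E q →
      (∀ D' : Subgroup G, D < D' → D' ≤ E → Rubin ℓ Θ D') → Realised ℓ Θ D (q • (nrm D • Θ))) ∧
    (∀ D : Subgroup G, Rubin ℓ Θ D ↔ ∀ p : ℕ, p.Prime → RubinAt p ℓ Θ D) ∧
    (∀ p : ℕ, p.Prime → (∀ D : Subgroup G, CyclicOutside p D → RubinAt p ℓ Θ D) →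
      ∀ D : Subgroup G, RubinAt p ℓ Θ D) ∧
    ((∀ D : Subgroup G, OneNoncyclic D → Rubin ℓ Θ D) → ∀ D : Subgroup G, Rubin ℓ Θ D) := by
  have part2 : ∀ D : Subgroup G, Rubin ℓ Θ D ↔ ∀ p : ℕ, p.Prime → RubinAt p ℓ Θ D := by
    intro D
    constructor
    · intro h p hp
      refine ⟨1, hp.one_lt.ne' ∘ Nat.dvd_one.1, ?_⟩
      rw [one_smul]
      exact h
    · intro h
      exact grp_bezout ℓ Θ h
  have up : ∀ (p : ℕ), p.Prime → ∀ S : Subgroup G → Prop,
      (∀ D : Subgroup G, S D → RubinAt p ℓ Θ D) →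
      (∀ D : Subgroup G, ¬ S D → ∃ q, q ≠ p ∧ NoncyclicAt D q) →
      ∀ D : Subgroup G, RubinAt p ℓ Θ D := by
    intro p hp S hS hS'
    have key : ∀ n : ℕ, ∀ D : Subgroup G, Nat.card G - Nat.card D = n → RubinAt p ℓ Θ D := by
      intro n
      induction n using Nat.strong_induction_on with
      | _ n ih =>
        intro D hD
        by_cases hc : S D
        · exact hS D hc
        · obtain ⟨q, hqp, E, hE⟩ := hS' D hc
          have h4 : q • (nrm D • Θ) ∈ grpAt ℓ Θ p hp D := by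
            refine norm_relation Θ hE (fun D => grpAt ℓ Θ p hp D)
              (fun D D' h => grpAt_mono ℓ Θ hp h) fun D' hD' _ => ?_
            have h4 : Nat.card D < Nat.card D' := by
              have h5 : Nat.card D ≤ Nat.card D' :=
                Nat.le_of_dvd Nat.card_pos (Subgroup.card_dvd_of_le hD'.le)
              rcases h5.lt_or_eq with h6 | h6
              · exact h6
              · exact absurd (Subgroup.eq_of_le_of_card_ge hD'.le h6.ge) hD'.ne
            have h5 : Nat.card D' ≤ Nat.card G :=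
              Nat.le_of_dvd Nat.card_pos (Subgroup.card_subgroup_dvd_card D')
            exact ih (Nat.card G - Nat.card D') (by omega) D' rfl
          obtain ⟨k, hk, h5⟩ := h4
          refine ⟨k * q, fun hd => ?_, ?_⟩
          · rcases (Nat.Prime.dvd_mul hp).1 hd with h | h
            · exact hk h
            · exact hqp ((Nat.prime_dvd_prime_iff_eq hp hE.1).1 h).symm
          · rw [mul_smul]
            exact h5
    exact fun D => key _ D rfl
  refine ⟨?_, part2, ?_, ?_⟩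
  · intro D E q hE hs
    exact norm_relation Θ hE (fun D => grp ℓ Θ D) (fun D D' h => grp_mono ℓ Θ h) hs
  · intro p hp h
    refine up p hp (CyclicOutside p) h fun D hD => ?_
    unfold CyclicOutside at hD
    push Not at hD
    obtain ⟨q, h1, h2⟩ := hD
    exact ⟨q, h2, h1⟩
  · intro h D
    rw [part2]
    intro p hp
    refine up p hp OneNoncyclic (fun D hD => (part2 D).1 (h D hD) p hp) (fun D hD => ?_) D
    unfold OneNoncyclic at hD
    push Not at hD
    obtain ⟨q, q', h1, h2, h3⟩ := hD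
    by_cases hq : q = p
    · exact ⟨q', fun h4 => h3 (hq.trans h4.symm), h2⟩
    · exact ⟨q, hq, h1⟩

end Pool.Agent.Results.MP_dd9835_nt.TwoNoncyclicSylows
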